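import Pool.Agent.Helper15.UL.GoalsE

/-! Packet MIX of MP_57a173 (helper15): mixing in a complete Boolean algebra. -/

noncomputable section

namespace UL.PkMIX

theorem thm : UL.G_MIX := by
  intro L _ K ι F h1 h2
  let good : L → Prop := fun b => b ≠ ⊥ ∧ ∃ q : K → L, ∀ i, b ≤ F i q
  let S : Set (Set L) := {A | A.PairwiseDisjoint id ∧ ∀ b ∈ A, good b}
  obtain ⟨A, hA⟩ : ∃ A, Maximal (· ∈ S) A := by
    refine zorn_subset S ?_
    intro c hc hch
    refine ⟨⋃₀ c, ⟨?_, ?_⟩, fun s hs => Set.subset_sUnion_of_mem hs⟩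
    · intro x hx y hy hxy
      obtain ⟨s, hs, hxs⟩ := hx
      obtain ⟨t, ht, hyt⟩ := hy
      rcases hch.total hs ht with h | h
      · exact (hc ht).1 (h hxs) hyt hxy
      · exact (hc hs).1 hxs (h hyt) hxy
    · rintro b ⟨s, hs, hbs⟩
      exact (hc hs).2 b hbs
  obtain ⟨hd, hg⟩ := hA.prop
  have hsup : sSup A = ⊤ := by
    by_contra hne
    have hc : (sSup A)ᶜ ≠ ⊥ := by
      intro h
      exact hne (compl_eq_bot.1 h)
    obtain ⟨b', hb1, hb2, q, hq⟩ := h2 _ hc
    have hdis : ∀ a ∈ A, Disjoint a b' := by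
      intro a ha
      have h3 : Disjoint (sSup A) b' := (disjoint_compl_right (a := sSup A)).mono_right hb1
      exact h3.mono_left (le_sSup ha)
    have hin : insert b' A ∈ S := by
      refine ⟨?_, ?_⟩
      · rw [Set.pairwiseDisjoint_insert]
        exact ⟨hd, fun j hj _ => (hdis j hj).symm⟩
      · intro b hb
        rcases hb with rfl | hb
        · exact ⟨hb2, q, hq⟩
        · exact hg b hb
    have hmem : b' ∈ A := hA.le_of_ge hin (Set.subset_insert b' A) (Set.mem_insert b' A)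
    exact hb2 (disjoint_self.1 (hdis b' hmem))
  choose Q hQ using fun b : A => (hg b.1 b.2).2
  refine ⟨fun k => ⨆ b : A, b.1 ⊓ Q b k, fun i => ?_⟩
  rw [eq_top_iff, ← hsup]
  refine sSup_le (fun b hb => ?_)
  have hkey : ∀ k, b ⊓ Q ⟨b, hb⟩ k = b ⊓ ⨆ b' : A, b'.1 ⊓ Q b' k := by
    intro k
    apply le_antisymm
    · refine le_inf inf_le_left ?_
      exact le_iSup (fun b' : A => b'.1 ⊓ Q b' k) ⟨b, hb⟩
    · rw [inf_iSup_eq]
      refine iSup_le (fun b' => ?_)
      by_cases hbb : b'.1 = b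
      · have e : b' = ⟨b, hb⟩ := Subtype.ext hbb
        rw [e]
        exact inf_le_right
      · have hdis : Disjoint b'.1 b := hd b'.2 hb hbb
        have : b ⊓ (b'.1 ⊓ Q b' k) ≤ ⊥ := by
          have h3 : b ⊓ (b'.1 ⊓ Q b' k) ≤ b'.1 ⊓ b :=
            le_inf (inf_le_right.trans inf_le_left) inf_le_left
          exact h3.trans hdis.le_bot
        exact this.trans bot_le
  have h3 := h1 i (Q ⟨b, hb⟩) (fun k => ⨆ b' : A, b'.1 ⊓ Q b' k) b hkey
  exact (le_inf le_rfl (hQ ⟨b, hb⟩ i)).trans h3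

end UL.PkMIX
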